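import Pool.Agent.Q227.CD.GT
import Pool.Agent.Q227.CD.Cliff
import Pool.Agent.Q227.CD.Z6
import Pool.Agent.Q227.KM.H

/-!
# Signs on noncyclic two-generated `2`-groups, and twists by them
-/

set_option autoImplicit false
set_option linter.unusedSectionVars false

namespace Pool.Agent.Q227.KN

open Representation Module Polynomial Pool.Agent.Q15.GR Pool.Agent.Q227.CD

section signs

variable {G : Type*} [Group G] [Finite G]

/-- **the signs** -/
theorem exists_sign (hG : IsPGroup 2 G) (hnc : ¬ IsCyclic G)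
    (a b : G) (hab : Subgroup.closure {a, b} = ⊤) :
    ∃ χ : G → ℤˣ, (∀ g x, χ (g * x * g⁻¹) = χ x) ∧
      (∀ H : Subgroup G, H ≠ ⊤ → ∀ x ∈ H, ∀ y ∈ H, χ (x * y) = χ x * χ y) ∧
      ∃ x y, χ (x * y) ≠ χ x * χ y := by
  classical
  haveI : Fact (Nat.Prime 2) := ⟨Nat.prime_two⟩
  have hnt : (⊥ : Subgroup G) ≠ ⊤ := by
    intro h
    apply hnc
    refine ⟨1, fun x => ?_⟩
    have h1 : x ∈ (⊤ : Subgroup G) := Subgroup.mem_top x
    rw [← h, Subgroup.mem_bot] at h1
    rw [h1]
    exact Subgroup.mem_zpowers 1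
  obtain ⟨M₂, hM₂, -⟩ := (eq_top_or_exists_le_coatom (⊥ : Subgroup G)).resolve_left hnt
  obtain ⟨g, hg⟩ : ∃ g : G, g ∉ M₂ := by
    by_contra hne
    apply hM₂.1
    rw [eq_top_iff]
    intro x _
    by_contra hx
    exact hne ⟨x, hx⟩
  have hzg : Subgroup.zpowers g ≠ ⊤ := by
    intro h
    apply hnc
    refine ⟨g, fun x => ?_⟩
    have h1 : x ∈ Subgroup.zpowers g := by
      rw [h]
      exact Subgroup.mem_top x
    exact h1
  obtain ⟨M₁, hM₁, hgM₁⟩ := (eq_top_or_exists_le_coatom _).resolve_left hzg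
  have h12 : M₁ ≠ M₂ := by
    intro h
    apply hg
    rw [← h]
    exact hgM₁ (Subgroup.mem_zpowers g)
  haveI := coatom_normal hG hM₁
  haveI := coatom_normal hG hM₂
  obtain ⟨z, hz2, hz1⟩ : ∃ z ∈ M₂, z ∉ M₁ := by
    by_contra hne
    have h1 : M₂ ≤ M₁ := by
      intro x hx
      by_contra hx1
      exact hne ⟨x, hx, hx1⟩
    rcases lt_or_eq_of_le h1 with h2 | h2
    · exact hM₁.1 (hM₂.2 M₁ h2)
    · exact h12 h2.symm
  have hi : M₁.index = 2 := (coatom_props hG hM₁).1
  let ψ : G → ℤˣ := fun x => if x ∈ M₁ then 1 else -1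
  have hψm : ∀ x y, ψ (x * y) = ψ x * ψ y := by
    intro x y
    have h1 := Subgroup.mul_mem_iff_of_index_two hi (a := x) (b := y)
    change (if x * y ∈ M₁ then (1 : ℤˣ) else -1) = (if x ∈ M₁ then 1 else -1) *
      (if y ∈ M₁ then 1 else -1)
    by_cases hx : x ∈ M₁
    · by_cases hy : y ∈ M₁
      · rw [if_pos hx, if_pos hy, if_pos (h1.2 ⟨fun _ => hy, fun _ => hx⟩)]
        rfl
      · rw [if_pos hx, if_neg hy, if_neg (fun h => hy ((h1.1 h).1 hx)), one_mul]
    · by_cases hy : y ∈ M₁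
      · rw [if_neg hx, if_pos hy, if_neg (fun h => hx ((h1.1 h).2 hy)), mul_one]
      · rw [if_neg hx, if_neg hy, if_pos (h1.2 ⟨fun h => absurd h hx, fun h => absurd h hy⟩)]
        decide
  have hψ1 : ∀ x ∈ M₁, ψ x = 1 := fun x hx => if_pos hx
  have hψz : ψ z ≠ 1 := by
    change (if z ∈ M₁ then (1 : ℤˣ) else -1) ≠ 1
    rw [if_neg hz1]
    decide
  refine ⟨fun x => if x ∈ M₂ then ψ x else 1, ?_, ?_, ?_⟩
  · intro g x
    have h1 : g * x * g⁻¹ ∈ M₂ ↔ x ∈ M₂ := by
      constructor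
      · intro h
        have h2 := Subgroup.Normal.conj_mem inferInstance _ h g⁻¹
        have h3 : g⁻¹ * (g * x * g⁻¹) * g⁻¹⁻¹ = x := by group
        rwa [h3] at h2
      · intro h
        exact Subgroup.Normal.conj_mem inferInstance _ h g
    simp only [h1]
    by_cases hx : x ∈ M₂
    · rw [if_pos hx, if_pos hx, hψm, hψm, mul_comm (ψ g), mul_assoc, ← hψm, mul_inv_cancel,
        hψ1 1 (Subgroup.one_mem _), mul_one]
    · rw [if_neg hx, if_neg hx]
  · intro H hH x hx y hy
    obtain ⟨M, hM, hHM⟩ := (eq_top_or_exists_le_coatom H).resolve_left hH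
    by_cases hMM : M = M₂
    · rw [hMM] at hHM
      simp only [if_pos (hHM hx), if_pos (hHM hy), if_pos (hHM (H.mul_mem hx hy)), hψm]
    · have h1 : ∀ w ∈ H, (if w ∈ M₂ then ψ w else 1) = 1 := by
        intro w hw
        by_cases hw2 : w ∈ M₂
        · rw [if_pos hw2]
          exact hψ1 w (coatom_inf hG a b hab hM hM₁ hM₂ h12 hMM ⟨hHM hw, hw2⟩)
        · rw [if_neg hw2]
      change (if x * y ∈ M₂ then ψ (x * y) else 1) = (if x ∈ M₂ then ψ x else 1) *
        (if y ∈ M₂ then ψ y else 1)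
      rw [h1 _ (H.mul_mem hx hy), h1 x hx, h1 y hy, mul_one]
  · refine ⟨g, g⁻¹ * z, ?_⟩
    have h1 : g⁻¹ * z ∉ M₂ := by
      intro h
      apply hg
      have h2 := M₂.mul_mem hz2 (M₂.inv_mem h)
      have h3 : z * (g⁻¹ * z)⁻¹ = g := by group
      rwa [h3] at h2
    change (if g * (g⁻¹ * z) ∈ M₂ then ψ (g * (g⁻¹ * z)) else 1) ≠
      (if g ∈ M₂ then ψ g else 1) * (if g⁻¹ * z ∈ M₂ then ψ (g⁻¹ * z) else 1)
    rw [mul_inv_cancel_left, if_pos hz2, if_neg hg, if_neg h1, mul_one]
    exact hψz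

end signs

section twist

variable {Γ : Type} [Group Γ] {k : Type} [Field k] {n : ℕ}

/-- the twist of a representation of `U` by a sign function which is multiplicative on `U` -/
def tw (χ : Γ → kˣ) (U : Subgroup Γ) (hχ : ∀ x ∈ U, ∀ y ∈ U, χ (x * y) = χ x * χ y)
    (ρ : Representation k U (Fin n → k)) : Representation k U (Fin n → k) where
  toFun u := ((χ u : kˣ) : k) • ρ u
  map_one' := by
    have h1 : χ ((1 : U) : Γ) = 1 := by
      have h2 := hχ 1 U.one_mem 1 U.one_mem
      rw [mul_one] at h2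
      exact mul_eq_left.1 h2.symm
    rw [h1, map_one, Units.val_one, one_smul]
  map_mul' u w := by
    rw [map_mul, Subgroup.coe_mul, hχ u u.2 w w.2, Units.val_mul, smul_mul_smul_comm]

theorem tw_apply (χ : Γ → kˣ) (U : Subgroup Γ) (hχ : ∀ x ∈ U, ∀ y ∈ U, χ (x * y) = χ x * χ y)
    (ρ : Representation k U (Fin n → k)) (u : U) : tw χ U hχ ρ u = ((χ u : kˣ) : k) • ρ u := rfl

theorem semi_of_irr {G : Type} [Group G] {ρ : Representation k G (Fin n → k)}
    (h : ρ.IsIrreducible) : ρ.IsSemisimpleRepresentation := by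
  rw [isSemisimpleRepresentation_iff_isSemisimpleModule_asModule]
  have h1 := (irreducible_iff_isSimpleModule_asModule _).1 h
  infer_instance

/-- a representation which is a twist on every proper subgroup is a twist -/
theorem no_twist [CharZero k] (hn : 0 < n) (N : Subgroup Γ) [hNn : N.Normal]
    (χ : Γ → kˣ) (hχN : ∀ x ∈ N, χ x = 1) (R₀ R : Representation k Γ (Fin n → k))
    (hirr : Representation.IsIrreducible
      (MonoidHom.comp R₀ N.subtype : Representation k N (Fin n → k)))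
    (hcomm : ∀ T : (Fin n → k) →ₗ[k] (Fin n → k), (∀ x : N, T ∘ₗ R₀ x = R₀ x ∘ₗ T) →
      ∃ c : k, T = c • LinearMap.id)
    (hss : R.IsSemisimpleRepresentation)
    (hchar : ∀ x, LinearMap.trace k _ (R x) = ((χ x : kˣ) : k) * LinearMap.trace k _ (R₀ x))
    (hU : ∀ x : Γ, ∃ U : Subgroup Γ, N ≤ U ∧ x ∈ U ∧
      ∀ y ∈ U, ∀ z ∈ U, χ (y * z) = χ y * χ z) :
    ∀ x y, χ (x * y) = χ x * χ y := by
  classical
  haveI : Nonempty (Fin n) := ⟨⟨0, hn⟩⟩
  haveI : Nontrivial (Fin n → k) := inferInstance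
  have hone : ∀ (c : k) (A : (Fin n → k) →ₗ[k] (Fin n → k)) (d : k), A * (c • 1) = d • A → 
      Function.Injective A → c = d := by
    intro c A d h hA
    obtain ⟨v, hv⟩ := exists_ne (0 : Fin n → k)
    have h1 := LinearMap.congr_fun h v
    change A (c • v) = d • A v at h1
    rw [map_smul] at h1
    have h2 : A v ≠ 0 := fun h3 => hv (hA (by rw [h3, map_zero]))
    exact smul_left_injective k h2 h1
  have hRR : ∀ (T : Representation k Γ (Fin n → k)) (x : Γ), T x * T x⁻¹ = 1 := fun T x => by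
    rw [← map_mul, mul_inv_cancel, map_one]
  have hRR' : ∀ (T : Representation k Γ (Fin n → k)) (x : Γ), T x⁻¹ * T x = 1 := fun T x => by
    rw [← map_mul, inv_mul_cancel, map_one]
  -- the restrictions to `N`
  have h1 : IsSemisimpleRepresentation (R.comp N.subtype : Representation k N (Fin n → k)) :=
    clifford R N.subtype (fun g h => ⟨⟨g * h * g⁻¹, hNn.conj_mem h h.2 g⟩, rfl⟩) hss
  have h2 : IsSemisimpleRepresentation (R₀.comp N.subtype : Representation k N (Fin n → k)) :=
    semi_of_irr hirr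
  obtain ⟨e⟩ := equiv_of_char (R.comp N.subtype : Representation k N (Fin n → k))
    (R₀.comp N.subtype : Representation k N (Fin n → k)) h1 h2 (by
      funext x
      change LinearMap.trace k _ (R x) = LinearMap.trace k _ (R₀ x)
      rw [hchar, hχN x x.2, Units.val_one, one_mul])
  let E : (Fin n → k) ≃ₗ[k] (Fin n → k) := e.toLinearEquiv
  let R' : Representation k Γ (Fin n → k) :=
    { toFun := fun x => E.conj (R x)
      map_one' := by rw [map_one]; exact E.conj_id
      map_mul' := fun x y => by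
        rw [map_mul]
        refine LinearMap.ext fun w => ?_
        change E (R x (R y (E.symm w))) = E (R x (E.symm (E (R y (E.symm w)))))
        rw [LinearEquiv.symm_apply_apply] }
  have hR'E : ∀ x, R' x = E.conj (R x) := fun _ => rfl
  have hR'N : ∀ x : N, R' x = R₀ x := by
    intro x
    refine LinearMap.ext fun w => ?_
    change E (R x (E.symm w)) = R₀ x w
    have h3 := IntertwiningMap.isIntertwining _ _ e.toIntertwiningMap x (E.symm w)
    change E (R x (E.symm w)) = R₀ x (E (E.symm w)) at h3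
    rw [h3, LinearEquiv.apply_symm_apply]
  have hR'tr : ∀ x, LinearMap.trace k _ (R' x) =
      ((χ x : kˣ) : k) * LinearMap.trace k _ (R₀ x) := by
    intro x
    rw [hR'E, ← hchar]
    exact LinearMap.trace_conj' _ _
  -- the scalars
  have hc : ∀ x, ∃ c : kˣ, R' x = (c : k) • R₀ x := by
    intro x
    obtain ⟨c, hc⟩ := hcomm (R' x * R₀ x⁻¹) (fun ν => by
      have h3 : R₀ (x⁻¹ * ν * x) = R' (x⁻¹ * ν * x) := by
        have h4 := hR'N ⟨x⁻¹ * ν * x, by
          have := hNn.conj_mem ν ν.2 x⁻¹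
          rwa [inv_inv] at this⟩
        exact h4.symm
      change R' x * R₀ x⁻¹ * R₀ ν = R₀ ν * (R' x * R₀ x⁻¹)
      calc R' x * R₀ x⁻¹ * R₀ ν = R' x * R₀ (x⁻¹ * ν * x) * R₀ x⁻¹ := by
            rw [mul_assoc, ← map_mul, mul_assoc (R' x), ← map_mul]
            congr 2
            group
        _ = R' (ν * x) * R₀ x⁻¹ := by
            rw [h3, ← map_mul]
            congr 2
            group
        _ = R₀ ν * (R' x * R₀ x⁻¹) := by rw [map_mul, hR'N, mul_assoc])
    have h5 : R' x = c • R₀ x := by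
      have h6 : R' x * R₀ x⁻¹ * R₀ x = (c • LinearMap.id) * R₀ x := by rw [hc]
      rw [mul_assoc, hRR', mul_one] at h6
      rw [h6]
      rfl
    have hc0 : c ≠ 0 := by
      rintro rfl
      rw [zero_smul] at h5
      have h6 := hRR R' x
      rw [h5, zero_mul] at h6
      exact zero_ne_one h6
    exact ⟨Units.mk0 c hc0, h5⟩
  choose c hc using hc
  have hinj : ∀ x, Function.Injective (R₀ x) := by
    intro x
    apply Function.LeftInverse.injective (g := R₀ x⁻¹)
    intro w
    exact LinearMap.congr_fun (hRR' R₀ x) w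
  have hcm : ∀ x y, c (x * y) = c x * c y := by
    intro x y
    obtain ⟨v, hv⟩ := exists_ne (0 : Fin n → k)
    have h3 : R₀ (x * y) v ≠ 0 := fun h => hv (hinj _ (by rw [h, map_zero]))
    apply Units.ext
    apply smul_left_injective k h3
    change ((c (x * y) : kˣ) : k) • R₀ (x * y) v = ((c x * c y : kˣ) : k) • R₀ (x * y) v
    have h4 : R' (x * y) v = R' x (R' y v) := by rw [map_mul]; rfl
    rw [hc, hc, hc] at h4
    change ((c (x * y) : kˣ) : k) • R₀ (x * y) v = (c x : k) • R₀ x ((c y : k) • R₀ y v) at h4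
    rw [h4, map_smul, smul_smul, Units.val_mul, map_mul]
    rfl
  -- the scalars are the values of `χ`
  have hcχ : ∀ x, c x = χ x := by
    intro x
    obtain ⟨U, hNU, hxU, hUm⟩ := hU x
    let ρ₁ : Representation k U (Fin n → k) := R'.comp U.subtype
    let ρ₂ : Representation k U (Fin n → k) := tw χ U hUm (R₀.comp U.subtype)
    have hN1 : (MonoidHom.comp ρ₁ (Subgroup.inclusion hNU) : Representation k N (Fin n → k)) =
        MonoidHom.comp R₀ N.subtype := by
      refine MonoidHom.ext fun ν => ?_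
      exact hR'N ν
    have hN2 : (MonoidHom.comp ρ₂ (Subgroup.inclusion hNU) : Representation k N (Fin n → k)) =
        MonoidHom.comp R₀ N.subtype := by
      refine MonoidHom.ext fun ν => ?_
      change ((χ ν : kˣ) : k) • R₀ ν = R₀ ν
      rw [hχN ν ν.2, Units.val_one, one_smul]
    have hi1 : ρ₁.IsIrreducible := Q227.CD.Z.irr_of_comp ρ₁ (Subgroup.inclusion hNU) (by rw [hN1]; exact hirr)
    have hi2 : ρ₂.IsIrreducible := Q227.CD.Z.irr_of_comp ρ₂ (Subgroup.inclusion hNU) (by rw [hN2]; exact hirr)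
    obtain ⟨e'⟩ := equiv_of_char ρ₁ ρ₂ (semi_of_irr hi1) (semi_of_irr hi2) (by
      funext u
      change LinearMap.trace k _ (R' u) = LinearMap.trace k _ (((χ u : kˣ) : k) • R₀ u)
      rw [hR'tr, map_smul, smul_eq_mul])
    let E' : (Fin n → k) ≃ₗ[k] (Fin n → k) := e'.toLinearEquiv
    have hE' : ∀ (u : U) (w : Fin n → k), E' (R' u w) = ((χ u : kˣ) : k) • R₀ u (E' w) :=
      fun u w => IntertwiningMap.isIntertwining _ _ e'.toIntertwiningMap u w
    obtain ⟨d, hd⟩ := hcomm E'.toLinearMap (fun ν => by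
      refine LinearMap.ext fun w => ?_
      change E' (R₀ ν w) = R₀ ν (E' w)
      have h3 := hE' ⟨ν, hNU ν.2⟩ w
      change E' (R' (ν : Γ) w) = ((χ (ν : Γ) : kˣ) : k) • R₀ (ν : Γ) (E' w) at h3
      rw [hR'N, hχN ν ν.2, Units.val_one, one_smul] at h3
      exact h3)
    have hE'd : ∀ w, E' w = d • w := fun w => LinearMap.congr_fun hd w
    have hd0 : d ≠ 0 := by
      rintro rfl
      obtain ⟨v, hv⟩ := exists_ne (0 : Fin n → k)
      apply hv
      apply E'.injective
      rw [hE'd, zero_smul, map_zero]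
    obtain ⟨v, hv⟩ := exists_ne (0 : Fin n → k)
    have h3 : d • R₀ x v ≠ 0 := smul_ne_zero hd0 fun h => hv (hinj _ (by rw [h, map_zero]))
    apply Units.ext
    apply smul_left_injective k h3
    change ((c x : kˣ) : k) • d • R₀ x v = ((χ x : kˣ) : k) • d • R₀ x v
    have h4 := hE' ⟨x, hxU⟩ v
    change E' (R' x v) = ((χ x : kˣ) : k) • R₀ x (E' v) at h4
    rw [hE'd, hE'd, hc, map_smul] at h4
    change d • ((c x : kˣ) : k) • R₀ x v = _ at h4
    rw [smul_comm] at h4
    exact h4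
  intro x y
  rw [← hcχ, ← hcχ, ← hcχ, hcm]

end twist

end Pool.Agent.Q227.KN
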