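import Pool.Agent.Q227.KN.A
import Pool.Agent.Q227.CD.NT3

/-!
# Existence over all proper subextensions, determinant given: the positive part
-/

set_option autoImplicit false
set_option linter.unusedSectionVars false

namespace Pool.Agent.Q227.KN

open Representation Module Polynomial Pool.Agent.Q227.CD Pool.Agent.Q227.KM
open Pool.Agent.Q15.GR hiding X
open NumberField IsDedekindDomain Pool.Agent.W401.Cheb Pool.Agent.W401.Frob Topology

section alg

variable {k : Type} [Field k]

theorem exists_xy [IsAlgClosed k] (a c : k) : ∃ x y : k, x + y = a ∧ x * y = c := by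
  obtain ⟨x, hx⟩ := IsAlgClosed.exists_root (X ^ 2 - C a * X + C c : k[X]) (by
    have h1 : (X ^ 2 - C a * X + C c : k[X]).natDegree = 2 := by compute_degree!
    intro h2
    have h3 := natDegree_eq_zero_iff_degree_le_zero.2 h2.le
    rw [h1] at h3
    exact absurd h3 (by norm_num))
  refine ⟨x, a - x, by ring, ?_⟩
  rw [IsRoot.def] at hx
  simp only [eval_add, eval_sub, eval_pow, eval_X, eval_mul, eval_C] at hx
  linear_combination -hx

theorem tpow_xy (x y : k) (f : ℕ) : KM.tpow (x + y) (x * y) f = x ^ f + y ^ f := by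
  induction f using Nat.twoStepInduction with
  | zero => rw [KM.tpow]; norm_num
  | one => rw [KM.tpow]; ring
  | more f h1 h2 => rw [KM.tpow, h1, h2]; ring

theorem tpow_sign (e a c : k) (he : e ^ 2 = 1) (f : ℕ) :
    KM.tpow (e * a) c f = e ^ f * KM.tpow a c f := by
  induction f using Nat.twoStepInduction with
  | zero => rw [KM.tpow, KM.tpow]; ring
  | one => rw [KM.tpow, KM.tpow]; ring
  | more f h1 h2 =>
    rw [KM.tpow, KM.tpow, h1, h2]
    have h3 : e ^ (f + 2) = e ^ f := by rw [pow_add, he, mul_one]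
    rw [h3, pow_succ]
    linear_combination (e ^ f * a * KM.tpow a c (f + 1)) * he

theorem inv_two {A B : (Fin 2 → k) →ₗ[k] (Fin 2 → k)} (h : A * B = 1) :
    LinearMap.det A * LinearMap.det B = 1 ∧
      LinearMap.det A * LinearMap.trace k _ B = LinearMap.trace k _ A := by
  constructor
  · rw [← LinearMap.det_comp]
    have h1 : A ∘ₗ B = LinearMap.id := h
    rw [h1, LinearMap.det_id]
  · have h3 := LinearMap.aeval_self_charpoly A
    rw [charpoly_two, map_add, map_sub, map_mul, map_pow, aeval_X, aeval_C, aeval_C] at h3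
    have h5 : A ^ 2 = (LinearMap.trace k _ A) • A - (LinearMap.det A) • 1 := by
      rw [Algebra.algebraMap_eq_smul_one, Algebra.algebraMap_eq_smul_one, smul_mul_assoc,
        one_mul] at h3
      rw [← sub_eq_zero, ← h3]
      abel
    have h6 : A = (LinearMap.trace k _ A) • 1 - (LinearMap.det A) • B := by
      have h7 : A ^ 2 * B = A := by rw [pow_two, mul_assoc, h, mul_one]
      rw [h5, sub_mul, smul_mul_assoc, smul_mul_assoc, h, one_mul] at h7
      exact h7.symm
    have h8 := congrArg (LinearMap.trace k (Fin 2 → k)) h6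
    rw [map_sub, map_smul, map_smul, LinearMap.trace_one, finrank_fin_fun, smul_eq_mul,
      smul_eq_mul] at h8
    push_cast at h8
    linear_combination h8

theorem roots_two {B : (Fin 2 → k) →ₗ[k] (Fin 2 → k)} {x y : k}
    (h1 : LinearMap.trace k _ B = x + y) (h2 : LinearMap.det B = x * y) :
    B.charpoly.roots = {x, y} := by
  have h3 : B.charpoly = (X - C x) * (X - C y) := by
    rw [charpoly_two, h1, h2, C_add, C_mul]
    ring
  rw [h3, roots_mul (mul_ne_zero (X_sub_C_ne_zero x) (X_sub_C_ne_zero y)), roots_X_sub_C,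
    roots_X_sub_C]
  rfl

theorem of_roots_two [IsAlgClosed k] {B : (Fin 2 → k) →ₗ[k] (Fin 2 → k)} {x y : k}
    (h : B.charpoly.roots = {x, y}) :
    LinearMap.trace k _ B = x + y ∧ LinearMap.det B = x * y := by
  obtain ⟨z, w, h1, h2⟩ := exists_xy (LinearMap.trace k _ B) (LinearMap.det B)
  have h3 := roots_two h1.symm h2.symm
  rw [h] at h3
  constructor
  · have h4 := congrArg Multiset.sum h3
    rw [← h1]
    simpa using h4.symm
  · have h4 := congrArg Multiset.prod h3
    rw [← h2]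
    simpa using h4.symm

end alg

section nt

variable {K : Type} [Field K] [NumberField K] {k : Type} [Field k] [CharZero k]
  [TopologicalSpace k] [IsTopologicalRing k] [T2Space k]

/-- the representation is attached to the traces `a` and determinants `c` -/
def Att (U : Subgroup (GK K)) (ρ : Representation k U (Fin 2 → k))
    (S : Set (HeightOneSpectrum (𝓞 K))) (a c : HeightOneSpectrum (𝓞 K) → k) : Prop :=
  ∀ v ∉ S, (∀ σ : U, IsInert v (σ : GK K) → ρ σ = 1) ∧ ∀ (f : ℕ) (σ : U), 0 < f →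
    CD.IsFrobPow v f (σ : GK K) → LinearMap.trace k _ (ρ σ) = KM.tpow (a v) (c v) f ∧
      LinearMap.det (ρ σ) = (c v) ^ f

/-- **the positive part** -/
theorem pos [IsAlgClosed k] (N : Subgroup (GK K)) [hNn : N.Normal] (hN : IsOpen (N : Set (GK K)))
    (hnc : ¬ IsCyclic (GK K ⧸ N))
    (h2 : ¬ (IsPGroup 2 (GK K ⧸ N) ∧ ∃ x y : GK K ⧸ N, Subgroup.closure {x, y} = ⊤))
    {S : Set (HeightOneSpectrum (𝓞 K))} (hS : S.Finite) (a c : HeightOneSpectrum (𝓞 K) → k)
    (δ : GK K →* kˣ) (hδc : Continuous fun g => (δ g : k))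
    (hδ : ∀ v ∉ S, ∀ σ, IsFrob v σ → ((δ σ : kˣ) : k) = c v)
    (h : ∀ (U : Subgroup (GK K)) (hU : N ≤ U), U ≠ ⊤ → ∃ ρ : Representation k U (Fin 2 → k),
      Cts ρ ∧ (rs hU ρ).IsIrreducible ∧ Att U ρ S a c) :
    ∃ R : Representation k (GK K) (Fin 2 → k), Cts R ∧ (rN N R).IsIrreducible ∧
      ∀ v ∉ S, (∀ σ, IsInert v σ → R σ = 1) ∧ ∀ σ, IsFrob v σ →
        LinearMap.trace k _ (R σ) = a v ∧ LinearMap.det (R σ) = c v := by
  classical
  haveI : Finite (GK K ⧸ N) := Subgroup.quotient_finite_of_isOpen _ hN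
  have hc0 : ∀ v ∉ S, c v ≠ 0 := by
    intro v hv
    obtain ⟨σ, hσ⟩ := exists_frob v
    rw [← hδ v hv σ hσ]
    exact (δ σ).ne_zero
  by_cases hG : ∃ r : ℕ, r.Prime ∧ IsPGroup r (GK K ⧸ N) ∧ ∃ a b : GK K ⧸ N,
      Subgroup.closure {a, b} = ⊤
  · -- two-generated groups of odd prime power order
    obtain ⟨r, hr, hrG, hgen⟩ := hG
    have hr2 : r ≠ 2 := by
      rintro rfl
      exact h2 ⟨hrG, hgen⟩
    haveI : Fact r.Prime := ⟨hr⟩
    have hodd : Odd N.index := by
      obtain ⟨m, hm⟩ := IsPGroup.iff_card.1 hrG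
      rw [Subgroup.index, hm]
      exact (hr.odd_of_ne_two hr2).pow
    have hNt : N ≠ ⊤ := by
      intro hN1
      apply hnc
      have h1 : ∀ x : GK K ⧸ N, x = 1 := by
        intro x
        obtain ⟨x, rfl⟩ := QuotientGroup.mk_surjective x
        exact (QuotientGroup.eq_one_iff x).2 (by rw [hN1]; exact Subgroup.mem_top x)
      refine ⟨1, fun x => ?_⟩
      rw [h1 x]
      exact Subgroup.mem_zpowers (1 : GK K ⧸ N)
    let ι : Type := {U : Subgroup (GK K) // N ≤ U ∧ U ≠ ⊤}
    haveI : Nonempty ι := ⟨⟨N, le_rfl, hNt⟩⟩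
    choose ρ' hρ' using fun i : ι => h i.1 i.2.1 i.2.2
    let U : ι → Subgroup (GK K) := fun i => i.1
    have hNU : ∀ i, N ≤ U i := fun i => i.2.1
    let ρ : ∀ i, Representation k (U i) (Fin 2 → k) := ρ'
    obtain ⟨R, h1, h2, h3, h4, h5⟩ := family_nt (K := K) (k := k) (n := 2) two_pos N hN
      (Nat.coprime_two_right.2 hodd) U hNU hS
      (fun v => X ^ 2 - C (a v) * X + C (c v)) δ hδc (fun v hv σ hσ => by
        rw [hδ v hv σ hσ]
        simp) ρ (fun i => (hρ' i).1) (fun i => (hρ' i).2.1)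
      (fun i T hT => schur _ (hρ' i).2.1 T hT)
      (fun i v hv => ((hρ' i).2.2 v hv).1) (fun i v hv σ hσ => by
        obtain ⟨h6, h7⟩ := ((hρ' i).2.2 v hv).2 1 σ one_pos (isFrobPow_one.2 hσ)
        rw [charpoly_two, h6, h7, pow_one]
        rfl)
    have hall : ∀ σ : GK K, ∃ i, σ ∈ U i := by
      intro σ
      obtain ⟨V, hV, hVt, hσ⟩ := proper_of_notcyclic N hnc σ
      exact ⟨⟨V, hV, hVt⟩, hσ⟩
    refine ⟨R, h1, ?_, fun v hv => ?_⟩
    · obtain ⟨i⟩ := ‹Nonempty ι›
      obtain ⟨e⟩ := h3 i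
      exact irr_of_equiv (fun i => hNU i) (hρ' i).2.1 e
    · obtain ⟨h6, h7⟩ := h5 v hv
      obtain ⟨σ₀, hσ₀⟩ := exists_frob v
      refine ⟨fun τ hτ => h6 τ hτ (hall τ), fun σ hσ => ?_⟩
      have h8 := h7 (fun τ _ => hall τ) ⟨σ₀, hσ₀, hall σ₀⟩ σ hσ
      rw [charpoly_two] at h8
      constructor
      · have h9 := congrArg (fun p : k[X] => p.coeff 1) h8
        simpa [coeff_X, coeff_one, coeff_C] using h9
      · have h9 := congrArg (fun p : k[X] => p.coeff 0) h8
        simpa using h9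
  · choose x y hxy hxy' using fun v : HeightOneSpectrum (𝓞 K) => exists_xy (a v) (c v)
    obtain ⟨R, h1, h2, h3⟩ := exact_pos (k := k) (n := 2) N hN hnc hG S hS
      (fun v => {(x v)⁻¹, (y v)⁻¹}) (fun U hU hUt => by
        obtain ⟨ρ, h3, h4, h5⟩ := h U hU hUt
        refine ⟨ρ, h3, h4, fun v hv => ⟨(h5 v hv).1, fun f σ hf hσ => ?_⟩⟩
        obtain ⟨h6, h7⟩ := (h5 v hv).2 f σ hf hσ
        obtain ⟨h8, h9⟩ := inv_two (A := ρ σ) (B := ρ σ⁻¹) (by
          rw [← map_mul, mul_inv_cancel, map_one])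
        have hcv := hc0 v hv
        have hx0 : x v ≠ 0 := fun h => hcv (by rw [← hxy' v, h, zero_mul])
        have hy0 : y v ≠ 0 := fun h => hcv (by rw [← hxy' v, h, mul_zero])
        have hxf : x v ^ f ≠ 0 := pow_ne_zero _ hx0
        have hyf : y v ^ f ≠ 0 := pow_ne_zero _ hy0
        rw [← hxy v, ← hxy' v, tpow_xy] at h6
        rw [← hxy' v, mul_pow] at h7
        rw [h7] at h8 h9
        rw [h6] at h9
        change (ρ σ⁻¹).charpoly.roots = Multiset.map (fun x => x ^ f) {(x v)⁻¹, (y v)⁻¹}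
        rw [roots_two (x := ((x v)⁻¹) ^ f) (y := ((y v)⁻¹) ^ f)]
        · rfl
        · rw [inv_pow, inv_pow]
          field_simp
          linear_combination h9
        · rw [inv_pow, inv_pow]
          field_simp
          linear_combination h8)
    refine ⟨R, h1, h2, fun v hv => ⟨(h3 v hv).1, fun σ hσ => ?_⟩⟩
    have h4 := (h3 v hv).2 σ hσ
    obtain ⟨h5, h6⟩ := of_roots_two h4
    obtain ⟨h8, h9⟩ := inv_two (A := R σ⁻¹) (B := R σ) (by
      rw [← map_mul, inv_mul_cancel, map_one])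
    have hcv := hc0 v hv
    have hx0 : x v ≠ 0 := fun h => hcv (by rw [← hxy' v, h, zero_mul])
    have hy0 : y v ≠ 0 := fun h => hcv (by rw [← hxy' v, h, mul_zero])
    rw [h6] at h8 h9
    rw [h5] at h9
    rw [← hxy v, ← hxy' v]
    constructor
    · field_simp at h9
      linear_combination h9
    · field_simp at h8
      linear_combination h8

end nt

end Pool.Agent.Q227.KN
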