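import Pool.Agent.Q227.KN.B

/-!
# Existence over all proper subextensions, determinant given: the negative part
-/

set_option autoImplicit false
set_option linter.unusedSectionVars false

namespace Pool.Agent.Q227.KN

open Representation Module Polynomial Pool.Agent.Q227.CD Pool.Agent.Q227.KM
open Pool.Agent.Q15.GR hiding X
open NumberField IsDedekindDomain Pool.Agent.W401.Cheb Pool.Agent.W401.Frob Topology

variable {K : Type} [Field K] [NumberField K] {k : Type} [Field k] [CharZero k]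
  [TopologicalSpace k] [IsTopologicalRing k] [T2Space k]

/-- signs as units of `k` -/
def sg (k : Type) [Field k] : ℤˣ →* kˣ := Units.map (Int.castRingHom k).toMonoidHom

omit [CharZero k] [TopologicalSpace k] [IsTopologicalRing k] [T2Space k] in
theorem sg_val (u : ℤˣ) : ((sg k u : kˣ) : k) = (((u : ℤˣ) : ℤ) : k) := rfl

omit [TopologicalSpace k] [IsTopologicalRing k] [T2Space k] in
theorem sg_inj : Function.Injective (sg k) := by
  intro u w h
  have h1 := congrArg Units.val h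
  rw [sg_val, sg_val] at h1
  exact Units.ext (Int.cast_injective h1)

omit [CharZero k] [TopologicalSpace k] [IsTopologicalRing k] [T2Space k] in
theorem sg_sq (u : ℤˣ) : ((sg k u : kˣ) : k) ^ 2 = 1 := by
  rw [← Units.val_pow_eq_pow_val, ← map_pow, Int.units_sq, map_one, Units.val_one]

omit [CharZero k] [TopologicalSpace k] [IsTopologicalRing k] [T2Space k] in
theorem frobPow_rep {n : ℕ} {R : Representation k (GK K) (Fin n → k)}
    {v : HeightOneSpectrum (𝓞 K)} (hR : ∀ σ, IsInert v σ → R σ = 1) {f : ℕ} {σ : GK K}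
    (hσ : CD.IsFrobPow v f σ) : ∃ σ₁, IsFrob v σ₁ ∧ R σ = (R σ₁) ^ f := by
  obtain ⟨Q, hQ1, hQ2, hQ3⟩ := hσ
  obtain ⟨σ₁, hσ₁⟩ := exists_frob_at (v := v) (Q := Q) ⟨hQ1, hQ2⟩
  have h1 := mul_of_frobPow ⟨hQ1, hQ2⟩ hσ₁ f hQ3
  have h2 : R ((σ₁ ^ f)⁻¹ * σ) = 1 := hR _ (isInert_iff.2 ⟨Q, ⟨hQ1, hQ2⟩, h1⟩)
  refine ⟨σ₁, ⟨Q, hQ1, hQ2, hσ₁⟩, ?_⟩
  have h3 : σ = σ₁ ^ f * ((σ₁ ^ f)⁻¹ * σ) := by group
  rw [h3, map_mul, h2, mul_one, map_pow]

/-- **the negative part** -/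
theorem neg (N : Subgroup (GK K)) [hNn : N.Normal] (hN : IsOpen (N : Set (GK K)))
    (hnc : ¬ IsCyclic (GK K ⧸ N)) (h2 : IsPGroup 2 (GK K ⧸ N)) {x y : GK K ⧸ N}
    (hxy : Subgroup.closure {x, y} = ⊤)
    {S : Set (HeightOneSpectrum (𝓞 K))} (hS : S.Finite) (hSN : ∀ v ∉ S, ∀ τ, IsInert v τ → τ ∈ N)
    (a c : HeightOneSpectrum (𝓞 K) → k) (R₀ : Representation k (GK K) (Fin 2 → k))
    (hR₀c : Cts R₀)
    (hirr : Representation.IsIrreducible
      (MonoidHom.comp R₀ N.subtype : Representation k N (Fin 2 → k)))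
    (hcomm : ∀ T : (Fin 2 → k) →ₗ[k] (Fin 2 → k), (∀ x : N, T ∘ₗ R₀ x = R₀ x ∘ₗ T) →
      ∃ c : k, T = c • LinearMap.id)
    (hR₀ : ∀ v ∉ S, (∀ σ, IsInert v σ → R₀ σ = 1) ∧ ∀ σ, IsFrob v σ →
      LinearMap.trace k _ (R₀ σ) = a v ∧ LinearMap.det (R₀ σ) = c v) :
    ∃ e : HeightOneSpectrum (𝓞 K) → ℤˣ,
      (∀ (U : Subgroup (GK K)) (hU : N ≤ U), U ≠ ⊤ → ∃ ρ : Representation k U (Fin 2 → k),
        Cts ρ ∧ (∀ ν : N, ρ ⟨ν, hU ν.2⟩ = R₀ ν) ∧
          Att U ρ S (fun v => (((e v : ℤˣ) : ℤ) : k) * a v) c) ∧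
      ¬ ∃ R : Representation k (GK K) (Fin 2 → k), Cts R ∧ R.IsSemisimpleRepresentation ∧
        ∀ v ∉ S, ∀ σ, IsFrob v σ →
          LinearMap.trace k _ (R σ) = (((e v : ℤˣ) : ℤ) : k) * a v := by
  classical
  haveI : Finite (GK K ⧸ N) := Subgroup.quotient_finite_of_isOpen _ hN
  obtain ⟨χ₀, hχc, hχH, z, w, hzw⟩ := exists_sign h2 hnc x y hxy
  have hχ1 : χ₀ 1 = 1 := by
    by_cases h : (⊥ : Subgroup (GK K ⧸ N)) = ⊤
    · exfalso
      apply hnc
      refine ⟨1, fun z => ?_⟩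
      have h1 : z ∈ (⊤ : Subgroup (GK K ⧸ N)) := Subgroup.mem_top z
      rw [← h, Subgroup.mem_bot] at h1
      rw [h1]
      exact Subgroup.mem_zpowers 1
    · have h1 := hχH ⊥ h 1 (Subgroup.one_mem _) 1 (Subgroup.one_mem _)
      rw [mul_one] at h1
      exact (mul_eq_left.1 h1.symm)
  have hχp : ∀ (z : GK K ⧸ N) (f : ℕ), χ₀ (z ^ f) = χ₀ z ^ f := by
    intro z f
    have hz : Subgroup.zpowers z ≠ ⊤ := by
      intro h
      apply hnc
      refine ⟨z, fun w => ?_⟩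
      have h1 : w ∈ Subgroup.zpowers z := by
        rw [h]
        exact Subgroup.mem_top w
      exact h1
    induction f with
    | zero => rw [pow_zero, pow_zero, hχ1]
    | succ f ih =>
      rw [pow_succ, hχH _ hz _ (Subgroup.npow_mem_zpowers z f) _ (Subgroup.mem_zpowers z), ih,
        pow_succ]
  let χ : GK K → kˣ := fun σ => sg k (χ₀ (σ : GK K ⧸ N))
  have hχN : ∀ σ ∈ N, χ σ = 1 := by
    intro σ hσ
    change sg k (χ₀ (σ : GK K ⧸ N)) = 1
    rw [(QuotientGroup.eq_one_iff σ).2 hσ, hχ1, map_one]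
  have hχcont : Continuous fun σ : GK K => ((χ σ : kˣ) : k) :=
    cont_quot N hN (fun w => ((sg k (χ₀ w) : kˣ) : k))
  have hχU : ∀ U : Subgroup (GK K), N ≤ U → U ≠ ⊤ → ∀ s ∈ U, ∀ t ∈ U, χ (s * t) = χ s * χ t := by
    intro U hU hUt s hs t ht
    let H : Subgroup (GK K ⧸ N) := U.map (QuotientGroup.mk' N)
    have hH : H ≠ ⊤ := by
      intro h
      apply hUt
      rw [eq_top_iff]
      intro σ _
      have h1 : (QuotientGroup.mk' N) σ ∈ H := by
        rw [h]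
        exact Subgroup.mem_top _
      obtain ⟨u, hu, hu'⟩ := h1
      have h2 : u⁻¹ * σ ∈ N := by
        rw [← QuotientGroup.eq]
        exact hu'
      have h3 := U.mul_mem hu (hU h2)
      rwa [mul_inv_cancel_left] at h3
    change sg k (χ₀ ((s * t : GK K) : GK K ⧸ N)) = sg k (χ₀ (s : GK K ⧸ N)) *
      sg k (χ₀ (t : GK K ⧸ N))
    have h4 := hχH H hH (s : GK K ⧸ N) ⟨s, hs, rfl⟩ (t : GK K ⧸ N) ⟨t, ht, rfl⟩
    rw [QuotientGroup.mk_mul, h4, map_mul]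
  let e : HeightOneSpectrum (𝓞 K) → ℤˣ := fun v =>
    χ₀ (((exists_frob v).choose : GK K) : GK K ⧸ N)
  have he : ∀ v ∉ S, ∀ (f : ℕ) (σ : GK K), CD.IsFrobPow v f σ →
      ((χ σ : kˣ) : k) = (((e v : ℤˣ) : ℤ) : k) ^ f := by
    intro v hv f σ hσ
    obtain ⟨g, hg⟩ := frobPow_mod N (hSN v hv) (exists_frob v).choose_spec hσ
    change ((sg k (χ₀ (σ : GK K ⧸ N)) : kˣ) : k) = _
    rw [hg, hχc, hχp, map_pow, Units.val_pow_eq_pow_val]
    rfl
  refine ⟨e, fun U hU hUt => ?_, ?_⟩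
  · refine ⟨tw χ U (hχU U hU hUt) (R₀.comp U.subtype), fun z => ?_, fun ν => ?_, fun v hv =>
      ⟨fun σ hσ => ?_, fun f σ hf hσ => ?_⟩⟩
    · have h3 : Continuous fun u : U => ((χ (u : GK K) : kˣ) : k) • R₀ (u : GK K) z :=
        (hχcont.comp continuous_subtype_val).smul ((hR₀c z).comp continuous_subtype_val)
      exact h3
    · change ((χ (ν : GK K) : kˣ) : k) • R₀ (ν : GK K) = R₀ (ν : GK K)
      rw [hχN ν ν.2, Units.val_one, one_smul]
    · change ((χ (σ : GK K) : kˣ) : k) • R₀ (σ : GK K) = 1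
      rw [hχN σ (hSN v hv σ hσ), (hR₀ v hv).1 σ hσ, Units.val_one, one_smul]
    · obtain ⟨σ₁, hσ₁, h3⟩ := frobPow_rep (hR₀ v hv).1 hσ
      obtain ⟨h4, h5⟩ := (hR₀ v hv).2 σ₁ hσ₁
      have h6 := he v hv f σ hσ
      have h7 : (((e v : ℤˣ) : ℤ) : k) ^ 2 = 1 := sg_sq (k := k) (e v)
      constructor
      · change LinearMap.trace k _ (((χ (σ : GK K) : kˣ) : k) • R₀ (σ : GK K)) =
          KM.tpow ((((e v : ℤˣ) : ℤ) : k) * a v) (c v) f
        rw [map_smul, smul_eq_mul, h6, h3, trace_pow_two, h4, h5, tpow_sign _ _ _ h7]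
      · change LinearMap.det (((χ (σ : GK K) : kˣ) : k) • R₀ (σ : GK K)) = (c v) ^ f
        rw [LinearMap.det_smul, finrank_fin_fun, h3, map_pow, h5, h6, ← pow_mul, mul_comm f 2,
          pow_mul, h7, one_pow, one_mul]
  · rintro ⟨R, hRc, hRss, hR⟩
    have hchar : ∀ σ : GK K, LinearMap.trace k _ (R σ) =
        ((χ σ : kˣ) : k) * LinearMap.trace k _ (R₀ σ) := by
      have h3 := Continuous.ext_on (frob_dense S hS) (char_cont hRc)
        (hχcont.mul (char_cont hR₀c)) (by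
        rintro σ ⟨v, hv, hσ⟩
        change LinearMap.trace k _ (R σ) = ((χ σ : kˣ) : k) * LinearMap.trace k _ (R₀ σ)
        rw [hR v hv σ hσ, ((hR₀ v hv).2 σ hσ).1, he v hv 1 σ (isFrobPow_one.2 hσ), pow_one])
      exact fun σ => congrFun h3 σ
    have h4 := no_twist (n := 2) two_pos N χ hχN R₀ R hirr hcomm hRss hchar (fun σ => by
      obtain ⟨V, hV, hVt, hσ⟩ := proper_of_notcyclic N hnc σ
      exact ⟨V, hV, hσ, hχU V hV hVt⟩)
    obtain ⟨z, rfl⟩ := QuotientGroup.mk_surjective z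
    obtain ⟨w, rfl⟩ := QuotientGroup.mk_surjective w
    apply hzw
    have h5 := h4 z w
    change sg k (χ₀ ((z * w : GK K) : GK K ⧸ N)) = sg k (χ₀ (z : GK K ⧸ N)) *
      sg k (χ₀ (w : GK K ⧸ N)) at h5
    rw [← map_mul] at h5
    exact sg_inj h5

end Pool.Agent.Q227.KN
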