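import Pool.Agent.Q227.KN.C

/-!
# Existence over all proper subextensions: the restrictions
-/

set_option autoImplicit false
set_option linter.unusedSectionVars false

namespace Pool.Agent.Q227.KN

open Representation Module Polynomial Pool.Agent.Q227.CD Pool.Agent.Q227.KM
open Pool.Agent.Q15.GR hiding X
open NumberField IsDedekindDomain Pool.Agent.W401.Cheb Pool.Agent.W401.Frob Topology

variable {K : Type} [Field K] [NumberField K] {k : Type} [Field k] [CharZero k]
  [TopologicalSpace k] [IsTopologicalRing k] [T2Space k]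

theorem restr {N U : Subgroup (GK K)} (hN : IsOpen (N : Set (GK K))) (hU : N ≤ U)
    {S : Set (HeightOneSpectrum (𝓞 K))} (hS : S.Finite) {a c : HeightOneSpectrum (𝓞 K) → k}
    (R : Representation k (GK K) (Fin 2 → k)) (hRc : Cts R)
    (hRirr : Representation.IsIrreducible
      (MonoidHom.comp R N.subtype : Representation k N (Fin 2 → k)))
    (hR : ∀ v ∉ S, ∀ σ, IsFrob v σ → LinearMap.trace k _ (R σ) = a v)
    (ρ : Representation k U (Fin 2 → k)) (hρc : Cts ρ)
    (hρirr : Representation.IsIrreducible
      (MonoidHom.comp ρ (Subgroup.inclusion hU) : Representation k N (Fin 2 → k)))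
    (hρ : Att U ρ S a c) :
    Nonempty (Representation.Equiv
      (R.comp U.subtype : Representation k U (Fin 2 → k)) ρ) := by
  have hUo : IsOpen (U : Set (GK K)) := Subgroup.isOpen_mono hU hN
  have h1 : Representation.IsIrreducible
      (R.comp U.subtype : Representation k U (Fin 2 → k)) :=
    Q227.CD.Z.irr_of_comp _ (Subgroup.inclusion hU) hRirr
  have h2 : ρ.IsIrreducible := Q227.CD.Z.irr_of_comp _ (Subgroup.inclusion hU) hρirr
  have hRc' : Cts (R.comp U.subtype : Representation k U (Fin 2 → k)) := fun z =>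
    (hRc z).comp continuous_subtype_val
  refine equiv_of_char _ _ (semi_of_irr h1) (semi_of_irr h2) ?_
  have hdense : Dense ((Subtype.val : U → GK K) ⁻¹' {x : GK K | ∃ v ∉ S, IsFrob v x}) :=
    Dense.preimage (frob_dense S hS) hUo.isOpenMap_subtype_val
  refine Continuous.ext_on hdense (char_cont hRc') (char_cont hρc) ?_
  rintro ⟨x, hx⟩ ⟨v, hv, hxv⟩
  change LinearMap.trace k _ (R x) = LinearMap.trace k _ (ρ ⟨x, hx⟩)
  rw [hR v hv x hxv, ((hρ v hv).2 1 ⟨x, hx⟩ one_pos (isFrobPow_one.2 hxv)).1]
  rfl

end Pool.Agent.Q227.KN
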